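import Pool.Agent.CBG.StmtsA

/-!
# Row cbg INV: the derivatives of an invariant form in the invariant directions vanish
-/

set_option autoImplicit false
set_option maxSynthPendingDepth 3

namespace Pool.Agent.CBG.H27

open scoped Manifold ContDiff Topology
open Set Filter MeasureTheory Pool.Agent.CBG

theorem inv : InvStmt := by
  intro n G X hG hinv
  have hd : ∀ᶠ y in 𝓝 (0 : Ed n), DifferentiableAt ℝ G y := by
    filter_upwards [hG.eventually (by simp)] with y hy
    exact hy.differentiableAt (by norm_num)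
  have h1 : ∀ᶠ y in 𝓝 (0 : Ed n), ∀ a, fderiv ℝ G y (X a) = 0 := by
    filter_upwards [hd, hinv] with y hy hy' a
    have e1 : HasDerivAt (fun s : ℝ => y + s • X a) (X a) 0 := by
      have h2 : HasDerivAt (fun s : ℝ => s • X a) ((1 : ℝ) • X a) 0 :=
        (hasDerivAt_id (0 : ℝ)).smul_const (X a)
      rw [one_smul] at h2
      exact h2.const_add y
    have e2 : HasDerivAt (fun s : ℝ => G (y + s • X a)) (fderiv ℝ G y (X a)) 0 := by
      have h3 : HasFDerivAt G (fderiv ℝ G y) (y + (0 : ℝ) • X a) := by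
        rw [zero_smul, add_zero]
        exact hy.hasFDerivAt
      exact h3.comp_hasDerivAt (0 : ℝ) e1
    have e3 : (fun s : ℝ => G (y + s • X a)) = fun _ => G y := by
      funext s
      have h4 := hy' (s • a)
      rw [map_smul] at h4
      exact h4
    rw [e3] at e2
    exact e2.unique (hasDerivAt_const (0 : ℝ) (G y))
  have hdd : DifferentiableAt ℝ (fderiv ℝ G) 0 := by
    have h5 : ContDiffAt ℝ 1 (fderiv ℝ G) 0 := hG.fderiv_right (by norm_num)
    exact h5.differentiableAt (by norm_num)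
  have hsym : IsSymmSndFDerivAt ℝ G 0 := hG.isSymmSndFDerivAt (by simp)
  have h2 : ∀ a u, fderiv ℝ (fderiv ℝ G) 0 u (X a) = 0 := by
    intro a u
    have e1 : HasFDerivAt (fun y => fderiv ℝ G y (X a))
        ((ContinuousLinearMap.apply ℝ (Bil (Ed n)) (X a)).comp (fderiv ℝ (fderiv ℝ G) 0)) 0 :=
      (ContinuousLinearMap.apply ℝ (Bil (Ed n)) (X a)).hasFDerivAt.comp 0 hdd.hasFDerivAt
    have e2 : HasFDerivAt (fun y => fderiv ℝ G y (X a)) (0 : Ed n →L[ℝ] Bil (Ed n)) 0 := by
      have h3 : HasFDerivAt (fun _ : Ed n => (0 : Bil (Ed n))) (0 : Ed n →L[ℝ] Bil (Ed n)) 0 :=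
        hasFDerivAt_const _ _
      refine h3.congr_of_eventuallyEq ?_
      filter_upwards [h1] with y hy
      exact hy a
    have e3 := e1.unique e2
    have e4 := congrArg (fun L : Ed n →L[ℝ] Bil (Ed n) => L u) e3
    exact e4
  refine ⟨fun a => h1.self_of_nhds a, fun a u => ⟨?_, h2 a u⟩⟩
  rw [hsym.eq (X a) u]
  exact h2 a u

end Pool.Agent.CBG.H27
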